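import Mathlib
import Pool.Agent.Lib.helper26.BkrC

namespace Pool.Agent.Results.MP_2d934b_pr.Powers
open Pool.Agent.Lib.helper26.Bkr

theorem result (r : ℕ) (hr : 1 ≤ r) :
    ∃ (S : Type) (_ : Nonempty S) (d : ℕ) (_ : 1 ≤ d) (A : Set (Fin d → S)),
      ∀ T T' : Br, T.size = r → T'.size = r → ¬ Eqv T T' → T.val A ≠ T'.val A := by
  have : Nonempty (Fin r) := ⟨⟨0, by omega⟩⟩
  refine ⟨Bool, inferInstance, Fintype.card (Blk r × Fin 4), Fintype.card_pos,
    pull (Fintype.equivFin _) (big r), ?_⟩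
  intro T T' hT hT' hne he
  rw [val_pull, val_pull] at he
  exact hne (eqv_of_val T T' hT hT' (pull_inj _ he))

end Pool.Agent.Results.MP_2d934b_pr.Powers
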